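import Pool.Agent.helper42.GB.SpecR

/-!
# BP, BQ (project gb): bad primes, dimension of `R/c`, prime avoidance
-/

namespace GB

universe u

/-- A chain of primes starting above `p` is a chain of `R/p`. -/
theorem BP_le_dim {R : Type u} [CommRing R] (p : Ideal R) (l : LTSeries (PrimeSpectrum R))
    (h : p ≤ l.head.asIdeal) : (l.length : WithBot ℕ∞) ≤ ringKrullDim (R ⧸ p) := by
  rw [ringKrullDim_quotient]
  have hmem : ∀ i, l i ∈ PrimeSpectrum.zeroLocus (R := R) (p : Set R) := by
    intro i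
    rw [PrimeSpectrum.mem_zeroLocus]
    exact h.trans (l.head_le i)
  let l' : LTSeries (PrimeSpectrum.zeroLocus (R := R) (p : Set R)) :=
    LTSeries.mk l.length (fun i => ⟨l i, hmem i⟩) (fun i j hij => l.strictMono hij)
  exact Order.LTSeries.length_le_krullDim l'

/-- `n < D + 1` in `WithBot ℕ∞`. -/
theorem BP_lt {x : WithBot ℕ∞} {n D : ℕ} (h : (n : WithBot ℕ∞) ≤ x)
    (hx : ¬ ((D + 1 : ℕ) : WithBot ℕ∞) ≤ x) : (n : WithBot ℕ∞) ≤ D := by
  have h1 : (n : WithBot ℕ∞) < ((D + 1 : ℕ) : WithBot ℕ∞) := lt_of_le_of_lt h (not_le.1 hx)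
  have h2 : n < D + 1 := by exact_mod_cast h1
  exact_mod_cast Nat.lt_succ_iff.1 h2

theorem BP : BP_stmt.{u} := by
  intro R _ D hD hdim c hc
  obtain ⟨D, rfl⟩ : ∃ E, D = E + 1 := ⟨D - 1, by omega⟩
  have key : ringKrullDim (R ⧸ Ideal.span {c}) ≤ (D : WithBot ℕ∞) := by
    rw [ringKrullDim_quotient, Order.krullDim]
    refine iSup_le fun l => ?_
    let l' : LTSeries (PrimeSpectrum R) := l.map Subtype.val (fun _ _ h => h)
    have hl' : l'.length = l.length := rfl
    have hcl : c ∈ l'.head.asIdeal := by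
      have h1 := l.head.2
      rw [PrimeSpectrum.mem_zeroLocus] at h1
      exact h1 (Ideal.subset_span rfl)
    obtain ⟨p, hp, hpl⟩ := Ideal.exists_minimalPrimes_le (J := l'.head.asIdeal) bot_le
    by_cases hbad : p ∈ Bad R (D + 1)
    · -- `p` is strictly smaller
      have hcp : c ∉ p := hc p hbad
      let p' : PrimeSpectrum R := ⟨p, hp.1.1⟩
      have hlt : p' < l'.head := lt_of_le_of_ne hpl fun h => hcp (by
        have : p = l'.head.asIdeal := congrArg PrimeSpectrum.asIdeal h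
        rw [this]
        exact hcl)
      have h2 := Order.LTSeries.length_le_krullDim (l'.cons p' hlt)
      have h3 : (l'.cons p' hlt).length = l.length + 1 := by
        rw [RelSeries.cons_length, hl']
      rw [h3] at h2
      have h4 : ((l.length + 1 : ℕ) : WithBot ℕ∞) ≤ ((D + 1 : ℕ) : WithBot ℕ∞) := h2.trans hdim
      have h5 : l.length + 1 ≤ D + 1 := by exact_mod_cast h4
      exact_mod_cast (show l.length ≤ D by omega)
    · have h2 := BP_le_dim p l' hpl
      have h3 : ¬ ((D + 1 : ℕ) : WithBot ℕ∞) ≤ ringKrullDim (R ⧸ p) := fun h => hbad ⟨hp, h⟩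
      exact BP_lt h2 h3
  have := add_le_add_left key 1
  push_cast
  simpa using this

theorem BQ : BQ_stmt.{u} := by
  intro R _ _ _ D hD
  have hfin : (Bad R D).Finite :=
    (minimalPrimes.finite_of_isNoetherianRing R).subset fun p hp => hp.1
  refine ⟨hfin, ?_, ?_⟩
  · intro hdim
    have h1 : (D : WithBot ℕ∞) ≤ Order.krullDim (PrimeSpectrum R) := hdim.ge
    obtain ⟨l, hl⟩ := Order.le_krullDim_iff.1 h1
    obtain ⟨p, hp, hpl⟩ := Ideal.exists_minimalPrimes_le (J := l.head.asIdeal) bot_le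
    refine ⟨p, hp, ?_⟩
    have := BP_le_dim p l hpl
    rwa [hl] at this
  · by_contra hcon
    push Not at hcon
    have hsub : ((IsLocalRing.maximalIdeal R : Ideal R) : Set R) ⊆ ⋃ p ∈ Bad R D, (p : Set R) := by
      intro a ha
      obtain ⟨p, hp, hap⟩ := hcon a ha
      exact Set.mem_biUnion hp hap
    have h2 := (Ideal.subset_union_prime_finite hfin (f := id) ⊤ ⊤
      (fun p hp _ _ => hp.1.1.1)).1 hsub
    obtain ⟨p, hp, hmp⟩ := h2
    have hmax : IsLocalRing.maximalIdeal R = p :=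
      (IsLocalRing.maximalIdeal.isMaximal R).eq_of_le hp.1.1.1.ne_top hmp
    have hpm : p.IsMaximal := hmax ▸ IsLocalRing.maximalIdeal.isMaximal R
    let _ := Ideal.Quotient.field p
    have h0 : ringKrullDim (R ⧸ p) = 0 := ringKrullDim_eq_zero_of_field (R ⧸ p)
    have h1 := hp.2
    rw [h0] at h1
    have : D ≤ 0 := by exact_mod_cast h1
    omega

end GB
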