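import Pool.Agent.helper70.GB.SpecN
import Pool.Agent.helper42.GB.LC

/-!
# RZ (project gb): the class `C_n` is stable under localizations of `R(z)` at primes
-/

open Polynomial

namespace GB

universe u

theorem RZ : RZ_stmt.{u} := by
  intro n hn R _ hR p _
  have := hR.noeth
  have hnoeth : IsNoetherianRing (RX R) :=
    IsLocalization.isNoetherianRing (monicSub R) (RX R) inferInstance
  have hnoeth' : IsNoetherianRing (Localization.AtPrime p) :=
    IsLocalization.isNoetherianRing p.primeCompl (Localization.AtPrime p) hnoeth
  refine ⟨hnoeth', inferInstance, ?_, ?_⟩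
  · have h1 : ringKrullDim (Localization.AtPrime p) = p.height :=
      IsLocalization.AtPrime.ringKrullDim_eq_height p (Localization.AtPrime p)
    have h2 : (p.height : WithBot ℕ∞) ≤ ringKrullDim (RX R) :=
      Ideal.height_le_ringKrullDim_of_ne_top (Ideal.IsPrime.ne_top inferInstance)
    have h3 : ringKrullDim (RX R) ≤ ringKrullDim R :=
      LC_dim_localization (monicSub R) (fun f hf => hf) (RX R)
    rw [h1]
    exact (h2.trans h3).trans hR.dim
  · have h := hR.fact.map (((algebraMap (RX R) (Localization.AtPrime p)).comp
      (algebraMap R[X] (RX R))).comp (C : R →+* R[X]))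
    rwa [map_natCast] at h

end GB
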